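import Pool.Agent.helper73.TC.XDefs

/-!
# TX-G3: the quotient map `(∂Δ³)³ → |Y|`
-/

set_option autoImplicit false
open Topology

noncomputable section
namespace Pool.Agent.helper73.TC

namespace QM

/-- support of a point of the simplex -/
def supp {V : Type} [Fintype V] (w : stdSimplex ℝ V) : Finset V :=
  Finset.univ.filter fun v => 0 < (w : V → ℝ) v

theorem mem_supp {V : Type} [Fintype V] (w : stdSimplex ℝ V) (v : V) :
    v ∈ supp w ↔ 0 < (w : V → ℝ) v := by
  simp [supp]

theorem zero_of_notMem {V : Type} [Fintype V] (w : stdSimplex ℝ V) (v : V) (h : v ∉ supp w) :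
    (w : V → ℝ) v = 0 :=
  le_antisymm (not_lt.mp fun h' => h ((mem_supp w v).mpr h')) (w.2.1 v)

theorem map_apply {V W : Type} [Fintype V] [Fintype W] [DecidableEq W] (f : V → W)
    (w : stdSimplex ℝ V) (y : W) :
    (stdSimplex.map f w : W → ℝ) y = ∑ v with f v = y, (w : V → ℝ) v := by
  rw [stdSimplex.map_coe]
  exact FunOnFinite.linearMap_apply_apply _ _ _ _ _

theorem supp_map {V W : Type} [Fintype V] [DecidableEq V] [Fintype W] [DecidableEq W] (f : V → W)
    (w : stdSimplex ℝ V) : supp (stdSimplex.map f w) = (supp w).image f := by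
  ext y
  rw [mem_supp, map_apply, Finset.mem_image]
  constructor
  · intro h
    by_contra hc
    refine h.ne' (Finset.sum_eq_zero fun v hv => ?_)
    refine zero_of_notMem w v fun hv' => hc ⟨v, hv', ?_⟩
    exact (Finset.mem_filter.mp hv).2
  · rintro ⟨v, hv, rfl⟩
    refine Finset.sum_pos' (fun v _ => w.2.1 v) ⟨v, ?_, (mem_supp w v).mp hv⟩
    simp

/-- value of the push-forward at the image of a point, for a map injective on the support -/
theorem map_apply_inj {V W : Type} [Fintype V] [DecidableEq V] [Fintype W] [DecidableEq W]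
    (f : V → W) (w : stdSimplex ℝ V) (hf : Set.InjOn f (supp w : Set V)) (v : V) (hv : v ∈ supp w) :
    (stdSimplex.map f w : W → ℝ) (f v) = (w : V → ℝ) v := by
  rw [map_apply]
  rw [Finset.sum_eq_single v]
  · intro u hu huv
    refine zero_of_notMem w u fun hu' => huv ?_
    exact hf hu' hv (Finset.mem_filter.mp hu).2
  · intro h
    exact absurd (by simp) h

theorem compact_Real' {V : Type} [Fintype V] (C : Set (Finset V)) (hC : DownClosed C) :
    CompactSpace (Real C) := by
  have hcl : IsClosed {w : stdSimplex ℝ V | (Finset.univ.filter fun v => 0 < (w : V → ℝ) v) ∈ C} := by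
    have : {w : stdSimplex ℝ V | (Finset.univ.filter fun v => 0 < (w : V → ℝ) v) ∈ C} =
        ⋃ s ∈ C, {w : stdSimplex ℝ V | ∀ v, v ∉ s → (w : V → ℝ) v = 0} := by
      ext w
      simp only [Set.mem_ofPred_eq, Set.mem_iUnion, exists_prop]
      constructor
      · intro h
        exact ⟨_, h, fun v hv => zero_of_notMem w v hv⟩
      · rintro ⟨s, hs, h⟩
        refine hC s hs _ fun v hv => ?_
        by_contra hv'
        have h1 := (Finset.mem_filter.mp hv).2
        rw [h v hv'] at h1
        exact lt_irrefl _ h1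
    rw [this]
    refine Set.Finite.isClosed_biUnion (Set.toFinite _) fun s _ => ?_
    have h2 : {w : stdSimplex ℝ V | ∀ v, v ∉ s → (w : V → ℝ) v = 0} =
        ⋂ v, ⋂ (_ : v ∉ s), {w : stdSimplex ℝ V | (w : V → ℝ) v = 0} := by
      ext w
      simp
    rw [h2]
    refine isClosed_iInter fun v => isClosed_iInter fun _ => ?_
    exact isClosed_eq ((continuous_apply v).comp continuous_subtype_val) continuous_const
  have : CompactSpace (stdSimplex ℝ V) := isCompact_iff_compactSpace.mp (isCompact_stdSimplex ℝ V)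
  exact isCompact_iff_compactSpace.mp hcl.isCompact

theorem t2_Real' {V : Type} [Fintype V] (C : Set (Finset V)) : T2Space (Real C) :=
  inferInstanceAs (T2Space {w : stdSimplex ℝ V //
    (Finset.univ.filter fun v => 0 < (w : V → ℝ) v) ∈ C})

end QM

open QM

theorem quot_map {V W : Type} [Fintype V] [DecidableEq V] [Fintype W] [DecidableEq W]
    (P : V → Fin 3 → Fin 4 → ℝ) (X : Set (Finset V)) (hX : DownClosed X)
    (θ : C(Real X, Fin 3 → Real bd3)) (hθ : Function.Bijective θ)
    (hθP : ∀ x i j, ((θ x i).1 : Fin 4 → ℝ) j = ∑ v, (x.1 : V → ℝ) v * P v i j)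
    (ρ : Equiv.Perm (Fin 3) → V → V) (hρi : ∀ g, Function.Injective (ρ g))
    (hρP : ∀ g v i j, P (ρ g v) i j = P v (g i) j)
    (hρX : ∀ g, ∀ s ∈ X, s.image (ρ g) ∈ X)
    (q : V → W) (hq : ∀ g v, q (ρ g v) = q v)
    (hqi : ∀ s ∈ X, Set.InjOn q (s : Set V))
    (hgood : ∀ s ∈ X, ∀ t ∈ X, s.image q = t.image q → ∃ g, t = s.image (ρ g))
    (Y : Set (Finset W)) (hY : ∀ u, u ∈ Y ↔ ∃ s ∈ X, u = s.image q) :
    ∃ Q : C(Fin 3 → Real bd3, Real Y), Function.Surjective Q ∧
      ∀ z z', Q z = Q z' ↔ ∃ g : Equiv.Perm (Fin 3), z' = z ∘ g := by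
  have := compact_Real' X hX
  have := t2_Real' bd3
  let e : Real X ≃ₜ (Fin 3 → Real bd3) :=
    (θ.continuous).homeoOfEquivCompactToT2 (f := Equiv.ofBijective θ hθ)
  have he : ∀ x, e x = θ x := fun x => rfl
  -- the push-forward
  let π : Real X → Real Y := fun x => ⟨stdSimplex.map q x.1, by
    change supp _ ∈ Y
    rw [supp_map, hY]
    exact ⟨_, x.2, rfl⟩⟩
  have hπc : Continuous π :=
    Continuous.subtype_mk ((stdSimplex.continuous_map q).comp continuous_subtype_val) _
  have hπs : Function.Surjective π := by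
    intro y
    have hy : supp y.1 ∈ Y := y.2
    obtain ⟨s, hs, hsy⟩ := (hY _).mp hy
    have hsum : ∑ v ∈ s, (y.1 : W → ℝ) (q v) = 1 := by
      rw [← Finset.sum_image (f := fun w => (y.1 : W → ℝ) w) (hqi s hs), ← hsy, ← y.1.2.2]
      exact Finset.sum_subset (Finset.subset_univ _) fun w _ hw => zero_of_notMem _ _ hw
    let x : stdSimplex ℝ V := ⟨fun v => if v ∈ s then (y.1 : W → ℝ) (q v) else 0, by
      refine ⟨fun v => ?_, ?_⟩
      · show 0 ≤ ite _ _ _
        split_ifs
        · exact y.1.2.1 _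
        · exact le_rfl
      · rw [← hsum, Finset.sum_ite_mem, Finset.univ_inter]⟩
    have hxv : ∀ v, (x : V → ℝ) v = if v ∈ s then (y.1 : W → ℝ) (q v) else 0 := fun v => rfl
    have hxs : supp x = s := by
      ext v
      rw [mem_supp, hxv]
      constructor
      · intro h
        by_contra hv
        rw [if_neg hv] at h
        exact lt_irrefl _ h
      · intro hv
        rw [if_pos hv]
        have : q v ∈ supp y.1 := by
          rw [hsy]
          exact Finset.mem_image_of_mem _ hv
        exact (mem_supp _ _).mp this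
    refine ⟨⟨x, by change supp x ∈ X; rw [hxs]; exact hs⟩, ?_⟩
    apply Subtype.ext
    show stdSimplex.map q x = y.1
    apply stdSimplex.ext
    funext w
    show (stdSimplex.map q x : W → ℝ) w = (y.1 : W → ℝ) w
    by_cases hw : w ∈ supp y.1
    · rw [hsy] at hw
      obtain ⟨v, hv, rfl⟩ := Finset.mem_image.mp hw
      rw [map_apply_inj q x (by rw [hxs]; exact hqi s hs) v (by rw [hxs]; exact hv), hxv, if_pos hv]
    · have h1 : w ∉ supp (stdSimplex.map q x) := by
        rw [supp_map, hxs, ← hsy]
        exact hw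
      rw [zero_of_notMem _ _ hw, zero_of_notMem _ _ h1]
  -- the group action
  let R : Equiv.Perm (Fin 3) → Real X → Real X := fun g x => ⟨stdSimplex.map (ρ g) x.1, by
    change supp _ ∈ X
    rw [supp_map]
    exact hρX g _ x.2⟩
  have hR : ∀ g x, θ (R g x) = θ x ∘ g := by
    intro g x
    funext i
    apply Subtype.ext
    apply stdSimplex.ext
    funext j
    show ((θ (R g x) i).1 : Fin 4 → ℝ) j = ((θ x (g i)).1 : Fin 4 → ℝ) j
    rw [hθP, hθP]
    have h1 : ∀ v, (((R g x).1 : stdSimplex ℝ V) : V → ℝ) v * P v i j =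
        ∑ u with ρ g u = v, (x.1 : V → ℝ) u * P u (g i) j := by
      intro v
      change (stdSimplex.map (ρ g) x.1 : V → ℝ) v * P v i j = _
      rw [map_apply, Finset.sum_mul]
      refine Finset.sum_congr rfl fun u hu => ?_
      rw [← hρP, (Finset.mem_filter.mp hu).2]
    rw [Finset.sum_congr rfl fun v _ => h1 v]
    exact Finset.sum_fiberwise Finset.univ (ρ g) fun u => (x.1 : V → ℝ) u * P u (g i) j
  have hπR : ∀ g x, π (R g x) = π x := by
    intro g x
    apply Subtype.ext
    show stdSimplex.map q (stdSimplex.map (ρ g) x.1) = stdSimplex.map q x.1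
    rw [stdSimplex.map_comp_apply]
    congr 1
    funext v
    exact hq g v
  refine ⟨⟨fun z => π (e.symm z), hπc.comp e.symm.continuous⟩, hπs.comp e.symm.surjective, ?_⟩
  intro z z'
  show π (e.symm z) = π (e.symm z') ↔ _
  obtain ⟨x, rfl⟩ := e.surjective z
  obtain ⟨x', rfl⟩ := e.surjective z'
  rw [e.symm_apply_apply, e.symm_apply_apply]
  constructor
  · intro h
    have h1 : stdSimplex.map q x.1 = stdSimplex.map q x'.1 := congrArg Subtype.val h
    have h2 : (supp x.1).image q = (supp x'.1).image q := by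
      rw [← supp_map, ← supp_map, h1]
    obtain ⟨g, hg⟩ := hgood _ x.2 _ x'.2 h2
    refine ⟨g, ?_⟩
    have hg' : supp x'.1 = (supp x.1).image (ρ g) := hg
    have hx : R g x = x' := by
      apply Subtype.ext
      show stdSimplex.map (ρ g) x.1 = x'.1
      apply stdSimplex.ext
      funext w
      show (stdSimplex.map (ρ g) x.1 : V → ℝ) w = (x'.1 : V → ℝ) w
      by_cases hw : w ∈ supp x'.1
      · have hw' := hw
        rw [hg'] at hw'
        obtain ⟨v, hv, rfl⟩ := Finset.mem_image.mp hw'
        rw [map_apply_inj (ρ g) x.1 (hρi g).injOn v hv,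
          ← map_apply_inj q x.1 (hqi _ x.2) v hv, ← map_apply_inj q x'.1 (hqi _ x'.2) _ hw, h1, hq]
      · have h3 : w ∉ supp (stdSimplex.map (ρ g) x.1) := by
          rw [supp_map, ← hg']
          exact hw
        rw [zero_of_notMem _ _ hw, zero_of_notMem _ _ h3]
    rw [← hx]
    exact hR g x
  · rintro ⟨g, hg⟩
    have h1 : x' = R g x := by
      apply hθ.1
      rw [hR]
      exact hg
    rw [h1, hπR]

end Pool.Agent.helper73.TC
end
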